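import Pool.Agent.VMX.StmtsA
import Pool.Agent.Helper65_NTW.MVG

/-!
# Squad VMX, row SLA (helper67): slices are strictly convex, their boundary rays are extreme
-/

set_option autoImplicit false

open Matrix Filter Topology

namespace Pool.Agent.VMX.H67

open Pool.Agent.PFS Pool.Agent.PFJ Pool.Agent.NBT Pool.Agent.VMX
open Pool.Agent.NTW (PB rst)
open Pool.Agent.NTW.H65 (sum_two rpl rpl_i rpl_j rpl_o sum_rpl)

/-- replacing the two vertices of a pair box (after `Helper65_NTW/MVG.lean`) -/
theorem mvgE {n : ℕ} {C : Set (V n)} {Γ : Subgroup (GL (Fin n) ℝ)} (hC : CC C Γ) {K : ℕ}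
    (hK : 3 ≤ K) {w : Fin K → V n} (hw : IsPES C Γ w) {i j : Fin K} (hij : i ≠ j)
    {F : Submodule ℝ (V n)} (hPB : PB C w i j F) {a b : V n} (haF : a ∈ F) (hbF : b ∈ F)
    (hac : a ∈ closure C) (hbc : b ∈ closure C) (ha0 : a ≠ 0) (hb0 : b ≠ 0)
    (hab : Unt C F (a + b)) (hau : ¬ Unt C F a) (hbu : ¬ Unt C F b) :
    IsPES C Γ (rpl w i j a b) := by
  have hP : PCone C := hC.toPCone
  have hwcl : ∀ m, w m ∈ closure C := fun m => PES.cl hw.1 m
  have hpb := (pbf n C hP K w hw.1 i j hij).1 F hPB
  have hf : Unt C F (w i + w j) := hpb.1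
  have hbox3 := hpb.2.2.1
  have hfcl : w i + w j ∈ closure C := hf.2.1
  -- sums
  have hS : ∑ l, w l = (w i + w j) + rst w i j := by
    rw [sum_two Finset.univ (Finset.mem_univ i) (Finset.mem_univ j) hij w]
    unfold rst
    rw [add_assoc]
  have hSC : (w i + w j) + rst w i j ∈ C := by
    rw [← hS]
    have h1 := hw.1.pos (fun _ => 1) (fun _ => one_pos)
    simp only [one_smul] at h1
    exact h1
  have hRcl : rst w i j ∈ closure C := hP.cl_sum fun m _ => hwcl m
  have hbd : ∀ m, ∑ l ∈ Finset.univ.erase m, w l ∉ C := by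
    intro m hcon
    apply hw.1.bd (fun l => if l = m then 0 else 1)
      (fun l => by by_cases h : l = m <;> simp [h]) ⟨m, if_pos rfl⟩
    have e : ∑ l, (if l = m then (0 : ℝ) else 1) • w l = ∑ l ∈ Finset.univ.erase m, w l := by
      rw [← Finset.add_sum_erase Finset.univ _ (Finset.mem_univ m), if_pos rfl, zero_smul,
        zero_add]
      refine Finset.sum_congr rfl fun l hl => ?_
      rw [if_neg (Finset.mem_erase.1 hl).1, one_smul]
    rw [e]
    exact hcon
  -- a unit criterion
  have hunit : ∀ y ∈ F, y ∈ closure C → y + rst w i j ∈ C → Unt C F y := by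
    intro y hyF hyc hyC
    refine ⟨hyF, hyc, fun z hz => ?_⟩
    obtain ⟨M, hM, hMz⟩ := hP.absorb hyC z
    refine ⟨M, hM, ?_⟩
    have e : M • (y + rst w i j) - z =
        (M • y - z) + ∑ m ∈ (Finset.univ.erase i).erase j, (fun _ : Fin K => M) m • w m := by
      unfold rst
      rw [smul_add, Finset.smul_sum]
      abel
    rw [e] at hMz
    exact (hbox3 (M • y - z) (F.sub_mem (F.smul_mem _ hyF) hz) (fun _ => M)
      (subset_closure hMz)).1
  have hrplcl : ∀ m, rpl w i j a b m ∈ closure C := by
    intro m
    by_cases hmi : m = i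
    · rw [hmi, rpl_i]; exact hac
    by_cases hmj : m = j
    · rw [hmj, rpl_j w hij]; exact hbc
    rw [rpl_o w hmi hmj]
    exact hwcl m
  have hpes : PES C (rpl w i j a b) := by
    refine Pool.Agent.PFS.H60.crt n C hP (Fin K) _ hrplcl ?_ ?_
    · -- the total sum
      rw [sum_rpl w hij a b Finset.univ (Finset.mem_univ i) (Finset.mem_univ j)]
      show a + (b + rst w i j) ∈ C
      obtain ⟨M, hM, hMf⟩ := hab.2.2 (w i + w j) hf.1
      have hM' : 0 < M + 1 := by linarith
      rw [← hP.smul_iff hM']
      refine hP.mem_of_le hSC ?_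
      have e : (M + 1) • (a + (b + rst w i j)) - ((w i + w j) + rst w i j) =
          (M • (a + b) - (w i + w j)) + ((a + b) + M • rst w i j) := by
        rw [add_smul, one_smul, smul_add, smul_add, smul_add]
        abel
      rw [e]
      exact hP.cl_add hMf (hP.cl_add (hP.cl_add hac hbc) (hP.cl_smul hRcl hM.le))
    · intro m
      by_cases hmi : m = i
      · rw [hmi]
        intro hcon
        apply hbu
        apply hunit b hbF hbc
        have e : ∑ l ∈ Finset.univ.erase i, rpl w i j a b l = b + rst w i j := by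
          have h1 := Finset.add_sum_erase Finset.univ (rpl w i j a b) (Finset.mem_univ i)
          rw [sum_rpl w hij a b Finset.univ (Finset.mem_univ i) (Finset.mem_univ j), rpl_i] at h1
          exact add_left_cancel h1
        rw [e] at hcon
        exact hcon
      by_cases hmj : m = j
      · rw [hmj]
        intro hcon
        apply hau
        apply hunit a haF hac
        have e : ∑ l ∈ Finset.univ.erase j, rpl w i j a b l = a + rst w i j := by
          have h1 := Finset.add_sum_erase Finset.univ (rpl w i j a b) (Finset.mem_univ j)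
          rw [sum_rpl w hij a b Finset.univ (Finset.mem_univ i) (Finset.mem_univ j),
            rpl_j w hij] at h1
          have h2 : b + ∑ l ∈ Finset.univ.erase j, rpl w i j a b l = b + (a + rst w i j) := by
            rw [h1]
            unfold rst
            abel
          exact add_left_cancel h2
        rw [e] at hcon
        exact hcon
      intro hcon
      have hi' : i ∈ Finset.univ.erase m := Finset.mem_erase.2 ⟨fun h => hmi h.symm,
        Finset.mem_univ i⟩
      have hj' : j ∈ Finset.univ.erase m := Finset.mem_erase.2 ⟨fun h => hmj h.symm,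
        Finset.mem_univ j⟩
      rw [sum_rpl w hij a b _ hi' hj'] at hcon
      obtain ⟨M, hM, hMf⟩ := hf.2.2 (a + b) hab.1
      have hM' : 0 < M + 1 := by linarith
      apply hbd m
      rw [← hP.smul_iff hM']
      refine hP.mem_of_le hcon ?_
      rw [sum_two _ hi' hj' hij w]
      obtain ⟨R', hR'⟩ : ∃ R' : V n,
        R' = ∑ l ∈ ((Finset.univ.erase m).erase i).erase j, w l := ⟨_, rfl⟩
      have hR'cl : R' ∈ closure C := by
        rw [hR']
        exact hP.cl_sum fun l _ => hwcl l
      rw [← hR']
      have e : (M + 1) • (w i + (w j + R')) - (a + (b + R')) =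
          (M • (w i + w j) - (a + b)) + ((w i + w j) + M • R') := by
        rw [add_smul, one_smul, smul_add, smul_add, smul_add]
        abel
      rw [e]
      exact hP.cl_add hMf (hP.cl_add hfcl (hP.cl_smul hR'cl hM.le))
  -- the limit cone
  have hul := hC.hul
  have hfne : w i + w j ≠ 0 := by
    intro h0
    apply hul.lamNe _ (hw.2 i)
    apply hP.salient _ (hwcl i)
    have : -w i = w j := by
      rw [neg_eq_iff_add_eq_zero]
      exact h0
    rw [this]
    exact hwcl j
  obtain ⟨m, hmi, hmj⟩ : ∃ m : Fin K, m ≠ i ∧ m ≠ j := by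
    by_contra hcon
    push Not at hcon
    have h1 : (Finset.univ : Finset (Fin K)) ⊆ {i, j} := by
      intro m _
      rw [Finset.mem_insert, Finset.mem_singleton]
      by_cases h : m = i
      · exact Or.inl h
      · exact Or.inr (hcon m h)
    have h2 := Finset.card_le_card h1
    rw [Finset.card_univ, Fintype.card_fin] at h2
    have h3 : ({i, j} : Finset (Fin K)).card ≤ 2 := Finset.card_le_two
    omega
  have hfnC : w i + w j ∉ C := by
    intro hcon
    apply hbd m
    have hi' : i ∈ Finset.univ.erase m := Finset.mem_erase.2 ⟨fun h => hmi h.symm,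
      Finset.mem_univ i⟩
    have hj' : j ∈ Finset.univ.erase m := Finset.mem_erase.2 ⟨fun h => hmj h.symm,
      Finset.mem_univ j⟩
    rw [sum_two _ hi' hj' hij w, ← add_assoc]
    exact hP.add_cl hcon (hP.cl_sum fun l _ => hwcl l)
  have hfLam : w i + w j ∈ LamC C Γ :=
    Pool.Agent.PFS.H37.cloF n C Γ hC (fun _ => w i + w j) (w i + w j)
      (fun _ => hul.add _ (hul.lamHull _ (hw.2 i)) _ (hul.lamHull _ (hw.2 j)))
      tendsto_const_nhds hfnC hfne
  have hlam : ∀ y ∈ F, y ∈ closure C → y ≠ 0 → y ∈ LamC C Γ := by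
    intro y hyF hyc hy0
    obtain ⟨M, hM, hMy⟩ := hf.2.2 y hyF
    exact Pool.Agent.PFS.H37.flmF n C Γ hC (M • (w i + w j)) (hul.lamSmul _ hfLam M hM) y hyc
      hy0 hMy
  refine ⟨hpes, fun m => ?_⟩
  by_cases hmi : m = i
  · rw [hmi, rpl_i]
    exact hlam a haF hac ha0
  by_cases hmj : m = j
  · rw [hmj, rpl_j w hij]
    exact hlam b hbF hbc hb0
  rw [rpl_o w hmi hmj]
  exact hw.2 m

theorem pb_of_ib {n K : ℕ} {C : Set (V n)} {w : Fin K → V n} {p j : Fin K} (hpj : p ≠ j)
    {E : Submodule ℝ (V n)} (h : IB C w {p, j} E) : PB C w p j E := by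
  refine ⟨h.mem p (by simp), h.mem j (by simp), fun v hv hvc => h.box v hv ?_⟩
  have e : fS w ({p, j} : Finset (Fin K))ᶜ = rst w p j := by
    unfold fS rst
    apply Finset.sum_congr _ (fun _ _ => rfl)
    ext m
    simp only [Finset.mem_compl, Finset.mem_insert, Finset.mem_singleton, Finset.mem_erase,
      Finset.mem_univ, and_true]
    tauto
  rw [e]
  exact hvc

/-- a vector of the closed cone in the span of two vertices has nonnegative coefficients -/
theorem two_nng {n K : ℕ} {C : Set (V n)} (hP : PCone C) {w : Fin K → V n} (hw : PES C w)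
    {p j : Fin K} (hpj : p ≠ j) {a b : ℝ} (h : a • w p + b • w j ∈ closure C) :
    0 ≤ a ∧ 0 ≤ b := by
  classical
  have e : ∑ i, (if i = p then a else if i = j then b else 0) • w i = a • w p + b • w j := by
    rw [sum_two Finset.univ (Finset.mem_univ p) (Finset.mem_univ j) hpj
      (fun i => (if i = p then a else if i = j then b else 0) • w i)]
    rw [if_pos rfl, if_neg hpj.symm, if_pos rfl]
    have h0 : ∑ l ∈ (Finset.univ.erase p).erase j,
        (if l = p then a else if l = j then b else 0) • w l = 0 := by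
      apply Finset.sum_eq_zero
      intro l hl
      have h1 := (Finset.mem_erase.1 hl).1
      have h2 := (Finset.mem_erase.1 (Finset.mem_erase.1 hl).2).1
      rw [if_neg h2, if_neg h1, zero_smul]
    rw [h0, add_zero]
  have h1 := nng n C hP (Fin K) w hw (fun i => if i = p then a else if i = j then b else 0)
    (by rw [e]; exact h)
  have h2 := h1 p
  have h3 := h1 j
  rw [if_pos rfl] at h2
  rw [if_neg hpj.symm, if_pos rfl] at h3
  exact ⟨h2, h3⟩

theorem sla : SlaStmt := by
  intro n C Γ hC K hK hmax z hz p j hpj E hE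
  have hP : PCone C := hC.toPCone
  have hPB : PB C z p j E := pb_of_ib hpj hE
  have hpb := (pbf n C hP K z hz.1 p j hpj).1 E hPB
  have hu : Unt C E (z p + z j) := hpb.1
  have hzcl : ∀ m, z m ∈ closure C := fun m => PES.cl hz.1 m
  have one : ∀ x ∈ E, ∀ y ∈ E, x ∈ closure C → y ∈ closure C → Ind2 x y → Unt C E (x + y) := by
    intro x hx y hy hxc hyc hxy
    by_cases hd : 3 ≤ Module.finrank ℝ E
    · exact bxt n C Γ hC K hK hmax z hz p j hpj E hPB hd x hx y hy hxc hyc hxy
    · have hs := (pbf n C hP K z hz.1 p j hpj).2.2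
      have hle : Submodule.span ℝ ({z p, z j} : Set (V n)) ≤ E := by
        rw [Submodule.span_le]
        intro v hv
        rcases hv with hv | hv
        · rw [hv]; exact hPB.left
        · rw [Set.mem_singleton_iff.1 hv]; exact hPB.right
      have hEs : Submodule.span ℝ ({z p, z j} : Set (V n)) = E :=
        Submodule.eq_of_le_of_finrank_le hle (by rw [hs]; omega)
      rw [← hEs, Submodule.mem_span_pair] at hx hy
      obtain ⟨a, b, hab⟩ := hx
      obtain ⟨a', b', hab'⟩ := hy
      rw [← hab] at hxc hxy
      rw [← hab'] at hyc hxy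
      obtain ⟨ha, hb⟩ := two_nng hP hz.1 hpj hxc
      obtain ⟨ha', hb'⟩ := two_nng hP hz.1 hpj hyc
      have e : x + y = (a + a') • z p + (b + b') • z j := by
        rw [← hab, ← hab', add_smul, add_smul]
        abel
      have hmem : x + y ∈ E := by
        rw [e]
        exact E.add_mem (E.smul_mem _ hPB.left) (E.smul_mem _ hPB.right)
      have pa : 0 < a + a' := by
        rcases (add_nonneg ha ha').eq_or_lt with h | h
        · exfalso
          have h1 : a = 0 := by linarith
          have h2 : a' = 0 := by linarith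
          simp only [h1, h2, zero_smul, zero_add] at hxy
          have h3 := hxy b' (-b) (by rw [smul_smul, smul_smul, ← add_smul]; ring_nf; simp)
          have h4 : b = 0 := by linarith [h3.2]
          have h5 := (hxy 1 0 (by rw [h4, zero_smul, smul_zero, zero_smul, add_zero])).1
          exact one_ne_zero h5
        · exact h
      have pb : 0 < b + b' := by
        rcases (add_nonneg hb hb').eq_or_lt with h | h
        · exfalso
          have h1 : b = 0 := by linarith
          have h2 : b' = 0 := by linarith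
          simp only [h1, h2, zero_smul, add_zero] at hxy
          have h3 := hxy a' (-a) (by rw [smul_smul, smul_smul, ← add_smul]; ring_nf; simp)
          have h4 : a = 0 := by linarith [h3.2]
          have h5 := (hxy 1 0 (by rw [h4, zero_smul, smul_zero, zero_smul, add_zero])).1
          exact one_ne_zero h5
        · exact h
      obtain ⟨ε, hε, hεa, hεb⟩ : ∃ ε : ℝ, 0 < ε ∧ ε ≤ a + a' ∧ ε ≤ b + b' :=
        ⟨min (a + a') (b + b'), lt_min pa pb, min_le_left _ _, min_le_right _ _⟩
      have huε := (Pool.Agent.PFJ.H76.unf n C hP E _ hu).1 ε hε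
      refine (Pool.Agent.PFJ.H76.unf n C hP E _ huε).2.1 (x + y) hmem ?_
      have e2 : x + y - ε • (z p + z j) = (a + a' - ε) • z p + (b + b' - ε) • z j := by
        rw [e, sub_smul, sub_smul, smul_add]
        abel
      rw [e2]
      exact hP.cl_add (hP.cl_smul (hzcl p) (by linarith)) (hP.cl_smul (hzcl j) (by linarith))
  refine ⟨one, fun e he => ?_⟩
  obtain ⟨heE, hec, he0, heu⟩ := he
  have hK2 : 2 ≤ K := by omega
  have hzj0 : z j ≠ 0 := fun h => hC.hul.lamNe _ (hz.2 j) h
  by_cases hm : ∃ a : ℝ, e = a • z j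
  · obtain ⟨a, ha⟩ := hm
    have ha0 : a ≠ 0 := by
      intro h
      rw [h, zero_smul] at ha
      exact he0 ha
    intro y hy M hM
    rw [ha, smul_smul] at hM
    obtain ⟨c, hc⟩ := exv n C Γ hC K hK2 hmax z hz j y hy (M * a) hM
    refine ⟨c * a⁻¹, ?_⟩
    rw [hc, ha, smul_smul, mul_assoc, inv_mul_cancel₀ ha0, mul_one]
  · push Not at hm
    have hind : Ind2 e (z j) := ind2_of_ne hzj0 hm
    have hju : ¬ Unt C E (z j) := by
      intro hcon
      obtain ⟨M, hM, hMz⟩ := hcon.2.2 (z p) hPB.left
      have e1 : M • z j - z p = (-1 : ℝ) • z p + M • z j := by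
        rw [neg_smul, one_smul]
        abel
      rw [e1] at hMz
      have := (two_nng hP hz.1 hpj hMz).1
      linarith
    have h1 := mvgE hC hK hz hpj hPB heE hPB.right hec (hzcl j) he0 hzj0
      (one e heE (z j) hPB.right hec (hzcl j) hind) heu hju
    have h2 := exv n C Γ hC K hK2 hmax _ h1 p
    rw [rpl_i] at h2
    exact h2

end Pool.Agent.VMX.H67
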