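import Pool.Agent.VMX.StmtsB

/-!
# Squad VMX, row SQC (helper67): continuity of the transport
-/

set_option autoImplicit false

open Matrix Filter Topology

namespace Pool.Agent.VMX.H67

open Pool.Agent.PFS Pool.Agent.PFJ Pool.Agent.NBT Pool.Agent.VMX

theorem fS_upd_compl {n K : ℕ} (z : Fin K → V n) {p l : Fin K} (hl : l ≠ p) (x : V n) :
    fS (Function.update z p x) {l}ᶜ = x + fS z {p, l}ᶜ := by
  have h1 : p ∉ ({p, l} : Finset (Fin K))ᶜ := by simp
  have h2 : ({l} : Finset (Fin K))ᶜ = insert p ({p, l} : Finset (Fin K))ᶜ := by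
    ext m
    simp only [Finset.mem_compl, Finset.mem_singleton, Finset.mem_insert]
    by_cases hm : m = p
    · simp [hm, hl.symm]
    · simp [hm]
  have h3 := fS_update z p x h1
  rw [h2]
  unfold fS at h3 ⊢
  rw [Finset.sum_insert h1, Function.update_self, h3]

theorem fmc2 (hF : FmcStmt) {n K : ℕ} {C : Set (V n)} {Γ : Subgroup (GL (Fin n) ℝ)}
    (hC : CC C Γ) (hK : 3 ≤ K) (hM : MaxCard C Γ K) {z : Fin K → V n} {p : Fin K} {x y : V n}
    (hx : IsPES C Γ (Function.update z p x)) (hy : IsPES C Γ (Function.update z p y))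
    {I : Finset (Fin K)} (hI : p ∈ I) :
    Dm C y (fS (Function.update z p x) I) ↔ ∀ m, m ∉ I → y + x + fS z {p, m}ᶜ ∉ C := by
  have h1 := (hF n C Γ hC K hK hM (Function.update z p x) p hx).2.1 y I
    (by rw [Function.update_idem]; exact hy) hI
  have h2 : ∀ m, fS (Function.update z p x) {p, m}ᶜ = fS z {p, m}ᶜ :=
    fun m => fS_update z p x (by simp)
  simp only [Function.update_self, h2] at h1
  exact h1

theorem sqc (hF : FmcStmt) (hA : AlnStmt) : SqcStmt := by
  intro n C Γ Γ₀ K p J c F hS z hz j hjp hjJ h hh x q x0 q0 hx hx0 hq htx htq hq0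
  have hC : CC C Γ := hS.cc
  have hP : PCone C := hC.toPCone
  have hK := hS.three
  have hM := hS.maxc
  have hzh : F (Function.update z p h) := hh.1
  have hzx : ∀ k, F (Function.update z p (x k)) :=
    fun k => ((hA n C Γ Γ₀ K p J c F hS z hz (x k)).1 (hx k)).1
  have hzx0 : F (Function.update z p x0) := ((hA n C Γ Γ₀ K p J c F hS z hz x0).1 hx0).1
  have hzq : ∀ k, F (Function.update z p (q k)) := by
    intro k
    have h1 := (hq k).1.1
    rwa [Function.update_idem] at h1
  have hDx : ∀ k, Dm C (q k) (fS (Function.update z p (x k)) {p, j}) := by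
    intro k
    rw [fS_pair _ hjp.symm]
    exact (hq k).1.2
  have hDh : ∀ k, Dm C (q k) (fS (Function.update z p h) (insert p J)) :=
    fun k => ((hA n C Γ Γ₀ K p J c F hS _ hzh (q k)).1 (hq k).2).2
  have hpes := hS.pes
  -- the closed conditions
  have c1 : ∀ l, l ∉ ({p, j} : Finset (Fin K)) → q0 + x0 + fS z {p, l}ᶜ ∉ C := by
    intro l hl hcon
    have ht : Tendsto (fun k => q k + x k + fS z {p, l}ᶜ) atTop (𝓝 (q0 + x0 + fS z {p, l}ᶜ)) :=
      (htq.add htx).add tendsto_const_nhds
    obtain ⟨k, hk⟩ := (ht.eventually (hP.isOpen.mem_nhds hcon)).exists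
    exact (fmc2 hF hC hK hM (hpes _ (hzx k)) (hpes _ (hzq k)) (by simp)).1 (hDx k) l hl hk
  have c2 : ∀ l, l ∉ insert p J → q0 + h + fS z {p, l}ᶜ ∉ C := by
    intro l hl hcon
    have ht : Tendsto (fun k => q k + h + fS z {p, l}ᶜ) atTop (𝓝 (q0 + h + fS z {p, l}ᶜ)) :=
      (htq.add tendsto_const_nhds).add tendsto_const_nhds
    obtain ⟨k, hk⟩ := (ht.eventually (hP.isOpen.mem_nhds hcon)).exists
    exact (fmc2 hF hC hK hM (hpes _ hzh) (hpes _ (hzq k)) (by simp)).1 (hDh k) l hl hk
  have hjI : j ∉ insert p J := by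
    rw [Finset.mem_insert]
    push Not
    exact ⟨hjp, hjJ⟩
  have c3 := c2 j hjI
  -- the limit is in the limit cone
  have hcl : ∀ m, z m ∈ closure C := fun m => PES.cl (hpes _ hz).1 m
  have hhcl : h ∈ closure C := by
    have h1 := PES.cl (hpes _ hzh).1 p
    rwa [Function.update_self] at h1
  have hq0C : q0 ∉ C := by
    intro hcon
    apply c3
    exact hP.add_cl (hP.add_cl hcon hhcl) (fS_cl hP hcl _)
  have hqL : ∀ k, q k ∈ LamC C Γ := by
    intro k
    have h1 := (hpes _ (hzq k)).2 p
    rwa [Function.update_self] at h1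
  have hq0L : q0 ∈ LamC C Γ :=
    Pool.Agent.PFS.H37.cloF n C Γ hC q q0 (fun k => hC.hul.lamHull _ (hqL k)) htq hq0C hq0
  -- the sum is in the cone
  have hsum : q0 + fS z {p}ᶜ ∈ C := by
    by_contra hcon
    obtain ⟨a, ha, hqa⟩ := (hF n C Γ hC K hK hM (Function.update z p x0) p (hpes _ hzx0)).1 j q0
      hq0L (by
        intro m hm
        by_cases hmp : m = p
        · rw [hmp, fS_update z p x0 (by simp)]
          exact hcon
        · rw [fS_upd_compl z hmp x0, ← add_assoc]
          exact c1 m (by simp [hmp, hm]))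
    rw [Function.update_of_ne hjp] at hqa
    apply c3
    -- `a z_j + h + ..` is a positive combination
    have h1 := (hpes _ hzh).1.pos (fun m => if m = j then a else 1)
      (fun m => by by_cases hm : m = j <;> simp [hm, ha])
    have e : ∑ m, (if m = j then a else 1) • Function.update z p h m =
        q0 + h + fS z {p, j}ᶜ := by
      rw [← Finset.add_sum_erase Finset.univ _ (Finset.mem_univ j), if_pos rfl,
        Function.update_of_ne hjp, ← hqa, add_assoc, ← fS_upd_compl z hjp h]
      congr 1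
      unfold fS
      have e1 : (Finset.univ.erase j : Finset (Fin K)) = {j}ᶜ := by
        ext m; simp
      rw [e1]
      refine Finset.sum_congr rfl fun m hm => ?_
      have hmj : m ≠ j := by simpa using hm
      rw [if_neg hmj, one_smul]
    rw [e] at h1
    exact h1
  have hFq0 : F (Function.update z p q0) := by
    refine hS.cld (fun k => Function.update z p (q k)) _ hzq (fun i => ?_) ?_
    · by_cases hi : i = p
      · rw [hi]
        simp only [Function.update_self]
        exact htq
      · simp only [Function.update_of_ne hi]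
        exact tendsto_const_nhds
    · have e := fS_add_compl (Function.update z p q0) {p}
      rw [fS_single, Function.update_self, fS_update z p q0 (by simp)] at e
      rw [← e]
      exact hsum
  refine ⟨⟨?_, ?_⟩, ?_⟩
  · rw [Function.update_idem]
    exact hFq0
  · have h1 := (fmc2 hF hC hK hM (hpes _ hzx0) (hpes _ hFq0) (I := {p, j}) (by simp)).2 c1
    rwa [fS_pair _ hjp.symm] at h1
  · refine (hA n C Γ Γ₀ K p J c F hS _ hzh q0).2 ⟨?_, ?_⟩
    · rw [Function.update_idem]
      exact hFq0
    · exact (fmc2 hF hC hK hM (hpes _ hzh) (hpes _ hFq0) (by simp)).2 c2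

end Pool.Agent.VMX.H67
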