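import Pool.Agent.VMX.StmtsC

/-!
# Squad VMX, row ZZF (helper67): a free abelian subgroup of rank two
-/

set_option autoImplicit false

open Matrix Filter Topology

namespace Pool.Agent.VMX.H67

open Pool.Agent.PFS Pool.Agent.PFJ Pool.Agent.NBT Pool.Agent.VMX

theorem zzf (hFge : FgeStmt) (hTpv : TpvStmt) (hBtv : BtvStmt) (hAbn : AbnStmt)
    (hZza : ZzaStmt) (hZzg : ZzgStmt) : ZzfStmt := by
  intro n C Γ hC K hK hM hw
  obtain ⟨k, rfl⟩ : ∃ k, K = k + 1 := ⟨K - 1, by omega⟩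
  have hk : 2 ≤ k := by omega
  have hH : KT3.HK C Γ (k + 1) := { toCC := hC, three := hK, maxc := hM }
  obtain ⟨i1, hi1⟩ : ∃ i1 : Fin (k + 1), i1 ≠ 0 := by
    refine ⟨Fin.last k, fun h => ?_⟩
    have h1 := congrArg Fin.val h
    simp only [Fin.val_last, Fin.val_zero] at h1
    omega
  obtain ⟨a, ha⟩ : ∃ a : Fin (k + 1) → ℝ, ∀ i, a i = if i = 0 then 2 else if i = i1 then 0 else 1 :=
    ⟨_, fun _ => rfl⟩
  have ha0 : a 0 = 2 := by rw [ha, if_pos rfl]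
  have ha1 : a i1 = 0 := by rw [ha, if_neg hi1, if_pos rfl]
  have hA0 : ∀ i, i ≠ 0 → a i < a 0 := by
    intro i hi
    rw [ha0, ha, if_neg hi]
    by_cases h : i = i1
    · rw [if_pos h]; norm_num
    · rw [if_neg h]; norm_num
  have hA1 : ∀ i, i ≠ i1 → a i1 < a i := by
    intro i hi
    rw [ha1, ha]
    by_cases h : i = 0
    · rw [if_pos h]; norm_num
    · rw [if_neg h, if_neg hi]; norm_num
  obtain ⟨e1, S1, he1, h1⟩ := hTpv n k C Γ hH a hA0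
  obtain ⟨e2, S2, he2, h2⟩ := hBtv n k C Γ hH a i1 hi1 hA1
  obtain ⟨w, z, g, s, σ, lam, hσ, hFG⟩ := hFge n k C Γ hH hw a hA0 (min e1 e2)
    (max (max S1 S2) 2) (lt_min he1 he2)
  have hσ1 : S1 ≤ σ := (le_max_left _ _).trans ((le_max_left _ _).trans hσ)
  have hσ2 : S2 ≤ σ := (le_max_right _ _).trans ((le_max_left _ _).trans hσ)
  have hσ3 : 2 ≤ σ := (le_max_right _ _).trans hσ
  obtain ⟨ψ, hψ⟩ := h1 (min e1 e2) σ w z g s lam (min_le_left _ _) hσ1 hFG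
  obtain ⟨b, μ, ψ', hψ', hμ1, hμ2, hpos, hbL, -⟩ := h2 (min e1 e2) σ w z g s lam
    (lt_min he1 he2) (min_le_right _ _) hσ2 hFG
  rw [ha1, zero_mul, Real.exp_zero] at hμ1 hμ2
  have hμ0 : 0 < μ := by linarith
  have hexp : 5 ≤ Real.exp (a 0 * σ) := by
    have h3 := Real.add_one_le_exp (a 0 * σ)
    rw [ha0] at h3 ⊢
    linarith
  have hlam := hFG.l1
  have hla : μ < Real.exp (a 0 * σ) * lam := by nlinarith
  have hla0 : 0 < Real.exp (a 0 * σ) * lam := hμ0.trans hla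
  have hab : w 0 + b ∉ C := hAbn n k C Γ hC hk w hFG.pes g hFG.gm s
    (Real.exp (a 0 * σ) * lam) μ i1 b ψ' hFG.s0 hla0 hμ0 hi1 hFG.e0 hψ' hpos
  obtain ⟨γ, hγ, hcomm, hind⟩ := hZza n C Γ hC g hFG.gm s (Real.exp (a 0 * σ) * lam) μ (w 0) b
    ψ ψ' hFG.s0 hμ0 hla (hFG.pes.2 0) hbL hψ hψ' hab
  exact hZzg n Γ g γ hFG.gm hγ hcomm hind

end Pool.Agent.VMX.H67
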